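import Mathlib
import Pool.Agent.Y57.AK.Stm

/-!
# The limit of large multiplicities
-/

set_option autoImplicit false

open Finset

namespace Pool.Agent.Y378.AK

open Pool.Agent.Y57.AK

lemma step (N k q t dd E : ℕ) (_hk : 1 ≤ k)
    (h : dd * (N + (k * t + 1) - 1).choose N ≤
      E * (N + ((k + q - 1) * t + (q - 1) * N + 1) - 1).choose N) (hq : 1 ≤ q) :
    dd * (k * t) ^ N ≤ E * ((k + q - 1) * t + q * N) ^ N := by
  have e1 : N + (k * t + 1) - 1 = k * t + N := by omega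
  have e2 : N + ((k + q - 1) * t + (q - 1) * N + 1) - 1 =
      ((k + q - 1) * t + (q - 1) * N) + N := by omega
  rw [e1, e2] at h
  have f1 := Nat.ascFactorial_eq_factorial_mul_choose (k * t) N
  have f2 := Nat.ascFactorial_eq_factorial_mul_choose ((k + q - 1) * t + (q - 1) * N) N
  have g1 : (k * t) ^ N ≤ (k * t + 1).ascFactorial N :=
    (Nat.pow_le_pow_left (Nat.le_succ _) N).trans (Nat.pow_succ_le_ascFactorial _ _)
  have g2 : ((k + q - 1) * t + (q - 1) * N + 1).ascFactorial N ≤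
      ((k + q - 1) * t + (q - 1) * N + N) ^ N := Nat.ascFactorial_le_pow_add _ _
  have e3 : (k + q - 1) * t + (q - 1) * N + N = (k + q - 1) * t + q * N := by
    obtain ⟨q', rfl⟩ : ∃ q', q = q' + 1 := ⟨q - 1, by omega⟩
    rw [Nat.add_sub_cancel]
    ring
  rw [e3] at g2
  calc dd * (k * t) ^ N ≤ dd * (k * t + 1).ascFactorial N := Nat.mul_le_mul_left _ g1
    _ = N.factorial * (dd * (k * t + N).choose N) := by rw [f1]; ring
    _ ≤ N.factorial * (E * ((k + q - 1) * t + (q - 1) * N + N).choose N) :=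
        Nat.mul_le_mul_left _ h
    _ = E * ((k + q - 1) * t + (q - 1) * N + 1).ascFactorial N := by rw [f2]; ring
    _ ≤ E * ((k + q - 1) * t + q * N) ^ N := Nat.mul_le_mul_left _ g2

lemma lim (N k q dd E : ℕ)
    (h : ∀ t : ℕ, 1 ≤ t → dd * (k * t) ^ N ≤ E * ((k + q - 1) * t + q * N) ^ N) :
    dd * k ^ N ≤ E * (k + q - 1) ^ N := by
  have h1 : ∀ t : ℕ, 1 ≤ t → (dd : ℝ) * k ^ N ≤
      E * (((k + q - 1 : ℕ) : ℝ) + ((q * N : ℕ) : ℝ) / t) ^ N := by
    intro t ht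
    have ht0 : (0 : ℝ) < t := by exact_mod_cast ht
    have h2 : (dd : ℝ) * ((k : ℝ) * t) ^ N ≤
        E * (((k + q - 1 : ℕ) : ℝ) * t + ((q * N : ℕ) : ℝ)) ^ N := by exact_mod_cast h t ht
    have h3 : ((k + q - 1 : ℕ) : ℝ) * t + ((q * N : ℕ) : ℝ) =
        (((k + q - 1 : ℕ) : ℝ) + ((q * N : ℕ) : ℝ) / t) * t := by
      rw [add_mul, div_mul_cancel₀ _ ht0.ne']
    rw [h3, mul_pow, mul_pow, ← mul_assoc, ← mul_assoc] at h2
    exact le_of_mul_le_mul_right h2 (by positivity)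
  have h4 : Filter.Tendsto (fun t : ℕ => (E : ℝ) * (((k + q - 1 : ℕ) : ℝ) +
      ((q * N : ℕ) : ℝ) / t) ^ N) Filter.atTop
      (nhds ((E : ℝ) * (((k + q - 1 : ℕ) : ℝ) + 0) ^ N)) :=
    ((tendsto_const_nhds.add (tendsto_const_div_atTop_nhds_zero_nat _)).pow N).const_mul _
  have h5 := ge_of_tendsto h4 (Filter.eventually_atTop.2 ⟨1, fun t ht => h1 t ht⟩)
  rw [add_zero] at h5
  exact_mod_cast h5

theorem t_LIM : S_DIM → S_LIM := by
  intro hDIM ι _ _ S q D v J hS hD hq hJ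
  have hk : 1 ≤ J.card := hJ.card_pos
  apply lim
  intro t _
  refine step (Fintype.card ι) J.card q t D.card _ hk ?_ hq
  refine hDIM ι S q (J.card * t + 1)
    ((J.card + q - 1) * t + (q - 1) * Fintype.card ι + 1) D v J hS hD (by omega) (by omega) ?_
  obtain ⟨q', rfl⟩ : ∃ q', q = q' + 1 := ⟨q - 1, by omega⟩
  obtain ⟨k', hk'⟩ : ∃ k', J.card = k' + 1 := ⟨J.card - 1, by omega⟩
  rw [hk']
  have e1 : k' + 1 + (q' + 1) - 1 = k' + q' + 1 := by omega
  rw [e1, Nat.add_sub_cancel, Nat.add_sub_cancel, Nat.add_sub_cancel]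
  nlinarith [Nat.zero_le (k' * (q' * Fintype.card ι))]

end Pool.Agent.Y378.AK
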